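import Pool.Agent.Helper16.Cusp.F0
import Pool.Agent.Helper83.Cusp.Pull
import Pool.Agent.Helper98.Cusp.Step

/-! MP_c70db9_ag, packet C7b: the second special step of the tower. -/

namespace Pool.Agent.Helper16.Cusp

open MvPolynomial

lemma step2_om_prim : IsPrimitiveRoot om 3 := by
  have h := Complex.isPrimitiveRoot_exp 3 (by norm_num)
  have h2 : om = Complex.exp (2 * Real.pi * Complex.I / (3 : ℕ)) := by
    unfold om
    norm_num
  rw [h2]
  exact h

lemma step2_e0 (lam mu : ℂ) (v : V) : eval v (lin lam mu 0) = v 0 + om * v 1 := by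
  simp [lin]

lemma step2_e1 (lam mu : ℂ) (v : V) : eval v (lin lam mu 1) = om ^ 2 * v 0 + om * v 1 := by
  simp [lin]

lemma step2_e2 (lam mu : ℂ) (v : V) : eval v (lin lam mu 2) = v 2 + lam * v 0 + mu * v 1 := by
  simp [lin]

theorem step2 {F : R} {D κ T τ σ : ℕ} (hF : Lev F D κ T Q1) (hz : TZ F τ Q1)
    (hc : ∃ c : Fin σ → V, ProjInj c ∧ ∀ i, TanT F (X 2 - C 3 * X 0) (c i) ∧ c i 0 ≠ 0 ∧
      c i 1 ≠ 0 ∧ c i 2 ≠ 0 ∧ c i 0 ≠ c i 1) (hs : eval ![-1, -1, -3] F ≠ 0) :
    ∃ lam mu : ℂ, Lev (pull lam mu F) (3 * D) (9 * κ + 6 * T + 3 * τ) (3 * T) (fun _ => True) ∧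
      TZ (pull lam mu F) (3 * σ) (fun _ => True) := by
  obtain ⟨k, hk⟩ : ∃ k : ℂ, k ^ 3 = 3 := IsAlgClosed.exists_pow_nat_eq 3 (by norm_num)
  have hk0 : k ≠ 0 := by
    intro h
    rw [h] at hk
    norm_num at hk
  have ho3 := om_pow
  have hos := om_sum
  have hrel : ∀ v : V, eval v (lin k (k * om) 2) = v 2 + k * eval v (lin k (k * om) 0) := by
    intro v
    rw [step2_e2, step2_e0]
    ring
  refine ⟨k, k * om, ?_, ?_⟩
  · apply step hF hz
    · intro v v' hv hphi
      refine ⟨?_, trivial⟩
      intro h0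
      apply hv
      rw [← hphi]
      simp only [phi]
      rw [hrel v', h0, zero_add, mul_pow, hk]
    · have h1 : (k + k * om) ^ 3 = -3 := by
        have h2 : k + k * om = -(k * om ^ 2) := by
          linear_combination k * hos
        rw [h2]
        have h3 : (-(k * om ^ 2)) ^ 3 = -(k ^ 3 * (om ^ 3) ^ 2) := by ring
        rw [h3, hk, ho3]
        ring
      rw [h1]
      exact hs
  · obtain ⟨c, hcp, hci⟩ := hc
    have hroot : ∀ z : ℂ, ∃ r : ℂ, r ^ 3 = z := fun z => IsAlgClosed.exists_pow_nat_eq z (by norm_num)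
    choose r hr using hroot
    have hr0 : ∀ z, z ≠ 0 → r z ≠ 0 := by
      intro z hz h
      apply hz
      rw [← hr z, h]
      norm_num
    have hom0 : om ≠ 0 := by
      intro h
      rw [h] at ho3
      norm_num at ho3
    have hex : ∀ p : Fin 3 × Fin σ, ∃ v : V, ∀ i, eval v (lin k (k * om) i) =
        (![r (c p.2 0), om ^ (p.1 : ℕ) * r (c p.2 1), k * r (c p.2 0)] : V) i :=
      fun p => exists_lin _ _ _
    choose v hv using hex
    have hv0 : ∀ p, eval (v p) (lin k (k * om) 0) = r (c p.2 0) := fun p => by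
      rw [hv p 0]; rfl
    have hv1 : ∀ p, eval (v p) (lin k (k * om) 1) = om ^ (p.1 : ℕ) * r (c p.2 1) := fun p => by
      rw [hv p 1]; rfl
    have hv2 : ∀ p, eval (v p) (lin k (k * om) 2) = k * r (c p.2 0) := fun p => by
      rw [hv p 2]; rfl
    have hc2 : ∀ i, c i 2 = 3 * c i 0 := by
      intro i
      obtain ⟨_, _, _, _, h, _⟩ := (hci i).1
      simp only [map_sub, eval_X, map_mul, eval_C] at h
      linear_combination h
    have hphi : ∀ p, phi k (k * om) (v p) = c p.2 := by
      intro p
      funext i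
      fin_cases i
      · simp only [phi]
        change eval (v p) (lin k (k * om) 0) ^ 3 = c p.2 0
        rw [hv0, hr]
      · simp only [phi]
        change eval (v p) (lin k (k * om) 1) ^ 3 = c p.2 1
        rw [hv1, mul_pow, hr, ← pow_mul, mul_comm, pow_mul']
        rw [ho3]
        simp
      · simp only [phi]
        change eval (v p) (lin k (k * om) 2) ^ 3 = c p.2 2
        rw [hv2, mul_pow, hr, hk, hc2]
    have hv2z : ∀ p, v p 2 = 0 := by
      intro p
      have := hrel (v p)
      rw [hv0, hv2] at this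
      linear_combination -this
    have hprod : ∀ p, 3 * (om - om ^ 2) * (v p 0 * v p 1 * (v p 0 - v p 1)) =
        c p.2 0 - c p.2 1 := by
      intro p
      have h0 : c p.2 0 = (v p 0 + om * v p 1) ^ 3 := by
        rw [← hphi p]
        simp only [phi]
        rw [step2_e0]
      have h1 : c p.2 1 = (om ^ 2 * v p 0 + om * v p 1) ^ 3 := by
        rw [← hphi p]
        simp only [phi]
        rw [step2_e1]
      rw [h0, h1]
      linear_combination (v p 0 ^ 3 * (om ^ 3 + 1) + 3 * v p 0 ^ 2 * v p 1 * om ^ 2 +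
        3 * v p 0 * v p 1 ^ 2 * om) * ho3
    have hne : ∀ p, v p 0 ≠ 0 ∧ v p 1 ≠ 0 ∧ v p 0 ≠ v p 1 := by
      intro p
      have h1 := hprod p
      have h2 : c p.2 0 - c p.2 1 ≠ 0 := sub_ne_zero.2 (hci p.2).2.2.2.2
      refine ⟨?_, ?_, ?_⟩
      · intro h
        apply h2
        rw [← h1, h]
        ring
      · intro h
        apply h2
        rw [← h1, h]
        ring
      · intro h
        apply h2
        rw [← h1, h]
        ring
    have hlne : ∀ p i, eval (v p) (lin k (k * om) i) ≠ 0 := by
      intro p i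
      have hc0 := hr0 _ (hci p.2).2.1
      have hc1 := hr0 _ (hci p.2).2.2.1
      fin_cases i
      · change eval (v p) (lin k (k * om) 0) ≠ 0
        rw [hv0]
        exact hc0
      · change eval (v p) (lin k (k * om) 1) ≠ 0
        rw [hv1]
        exact mul_ne_zero (pow_ne_zero _ hom0) hc1
      · change eval (v p) (lin k (k * om) 2) ≠ 0
        rw [hv2]
        exact mul_ne_zero hk0 hc0
    have htan : ∀ p, TanT (pull k (k * om) F) (X 2) (v p) := by
      intro p
      have h1 : TanT F (X 2 - C 3 * X 0) (phi k (k * om) (v p)) := by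
        rw [hphi p]
        exact (hci p.2).1
      have h2 := TanT.pull (hlne p) h1
      have h3 : pull k (k * om) (X 2 - C 3 * X 0) = X 2 * (lin k (k * om) 2 ^ 2 +
          lin k (k * om) 2 * (C k * lin k (k * om) 0) + (C k * lin k (k * om) 0) ^ 2) := by
        have h4 : lin k (k * om) 2 - C k * lin k (k * om) 0 = X 2 := by
          simp only [lin, Matrix.cons_val, Matrix.cons_val_zero, C_mul]
          ring
        have h5 : pull k (k * om) (X 2 - C 3 * X 0) =
            lin k (k * om) 2 ^ 3 - C 3 * lin k (k * om) 0 ^ 3 := by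
          simp only [Cusp.pull, map_sub, map_mul, aeval_X, aeval_C]
          rfl
        rw [h5, ← h4, ← hk, C_pow]
        ring
      rw [h3] at h2
      refine TanT.factor h2 ?_ ?_
      · rw [eval_X]
        exact hv2z p
      · simp only [map_add, map_mul, map_pow, eval_C]
        rw [hv0, hv2]
        have hc0 := hr0 _ (hci p.2).2.1
        have : (k * r (c p.2 0)) ^ 2 + k * r (c p.2 0) * (k * r (c p.2 0)) +
            (k * r (c p.2 0)) ^ 2 = 3 * (k * r (c p.2 0)) ^ 2 := by ring
        rw [this]
        exact mul_ne_zero (by norm_num) (pow_ne_zero _ (mul_ne_zero hk0 hc0))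
    have hinj : ∀ p p' : Fin 3 × Fin σ, ∀ t : ℂ, v p = t • v p' → p = p' := by
      intro p p' t h
      have e0 : eval (v p) (lin k (k * om) 0) = t * eval (v p') (lin k (k * om) 0) := by
        rw [step2_e0, step2_e0, h]
        simp only [Pi.smul_apply, smul_eq_mul]
        ring
      have e1 : eval (v p) (lin k (k * om) 1) = t * eval (v p') (lin k (k * om) 1) := by
        rw [step2_e1, step2_e1, h]
        simp only [Pi.smul_apply, smul_eq_mul]
        ring
      have e2 : eval (v p) (lin k (k * om) 2) = t * eval (v p') (lin k (k * om) 2) := by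
        rw [step2_e2, step2_e2, h]
        simp only [Pi.smul_apply, smul_eq_mul]
        ring
      have hphit : c p.2 = t ^ 3 • c p'.2 := by
        rw [← hphi p, ← hphi p']
        funext i
        simp only [phi, Pi.smul_apply, smul_eq_mul]
        fin_cases i
        · change eval (v p) (lin k (k * om) 0) ^ 3 = t ^ 3 * eval (v p') (lin k (k * om) 0) ^ 3
          rw [e0, mul_pow]
        · change eval (v p) (lin k (k * om) 1) ^ 3 = t ^ 3 * eval (v p') (lin k (k * om) 1) ^ 3
          rw [e1, mul_pow]
        · change eval (v p) (lin k (k * om) 2) ^ 3 = t ^ 3 * eval (v p') (lin k (k * om) 2) ^ 3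
          rw [e2, mul_pow]
      have hi := hcp _ _ _ hphit
      have hc0 := hr0 _ (hci p'.2).2.1
      have hc1 := hr0 _ (hci p'.2).2.2.1
      rw [hv0, hv0, hi] at e0
      have ht : t = 1 := by
        have : (t - 1) * r (c p'.2 0) = 0 := by linear_combination -e0
        rcases mul_eq_zero.1 this with h | h
        · exact sub_eq_zero.1 h
        · exact absurd h hc0
      rw [hv1, hv1, hi, ht, one_mul] at e1
      have h5 := mul_right_cancel₀ hc1 e1
      have h6 := step2_om_prim.pow_inj p.1.isLt p'.1.isLt h5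
      exact Prod.ext (Fin.ext h6) hi
    refine ⟨fun n => v (finProdFinEquiv.symm n), ?_, ?_⟩
    · intro i j t h
      exact finProdFinEquiv.symm.injective (hinj _ _ t h)
    · intro i
      exact ⟨htan _, (hne _).1, (hne _).2.1, hv2z _, (hne _).2.2, trivial⟩

end Pool.Agent.Helper16.Cusp
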